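import Pool.Agent.Helper890.Tp.Scale

set_option autoImplicit false

namespace Pool.Agent.Helper890.Tp

open Finset
open scoped BigOperators

/-- cotype 4 of `ℓ₁(ℓ₄)` with constant `√3`: fourth powers -/
lemma cot_nn {R J : Type*} [Fintype R] [Fintype J] (k : ℕ) (y : Fin k → R × J → ℝ) :
    ∑ i, nn (y i) ^ 4 ≤ 9 * (𝔼 e : Fin k → ℤˣ, nn (∑ i, sg (e i) • y i) ^ 2) ^ 2 := by
  have h1 : ∀ i' : R, L4 (fun i : Fin k => L4 (fun j => y i (i', j)))
      ≤ Real.sqrt 3 * 𝔼 e : Fin k → ℤˣ, L4 (fun j => (∑ i, sg (e i) • y i) (i', j)) := by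
    intro i'
    set X : J → ℝ := fun j => 𝔼 e : Fin k → ℤˣ, |∑ i, sg (e i) * y i (i', j)| with hX
    have hXle : L4 X ≤ 𝔼 e : Fin k → ℤˣ, L4 (fun j => (∑ i, sg (e i) • y i) (i', j)) := by
      refine (L4_expect (fun (e : Fin k → ℤˣ) (j : J) => |∑ i, sg (e i) * y i (i', j)|)).trans ?_
      refine Finset.expect_le_expect (fun e _ => ?_)
      rw [L4_abs]
      apply le_of_eq
      congr 1
      funext j
      simp [Finset.sum_apply]
    have h2 : L4 (fun i : Fin k => L4 (fun j => y i (i', j))) ^ 4 ≤ (Real.sqrt 3 * L4 X) ^ 4 := by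
      rw [L4_pow, mul_pow, L4_pow]
      simp_rw [L4_pow]
      have h3 : Real.sqrt 3 ^ 4 = 9 := by
        have : Real.sqrt 3 ^ 4 = (Real.sqrt 3 ^ 2) ^ 2 := by ring
        rw [this, Real.sq_sqrt (by norm_num)]; norm_num
      rw [h3, Finset.sum_comm, Finset.mul_sum]
      refine Finset.sum_le_sum (fun j _ => ?_)
      have h4 := expect_abs (Finset.univ : Finset (Fin k)) (fun i => y i (i', j))
      have h5 : ∑ i, y i (i', j) ^ 4 ≤ (∑ i, y i (i', j) ^ 2) ^ 2 := by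
        have h := Finset.sum_sq_le_sq_sum_of_nonneg (s := (Finset.univ : Finset (Fin k)))
          (f := fun i => y i (i', j) ^ 2) (fun j _ => sq_nonneg _)
        refine le_trans (le_of_eq ?_) h
        exact Finset.sum_congr rfl (fun j _ => by ring)
      refine h5.trans ?_
      have h6 : (∑ i, y i (i', j) ^ 2) ^ 2 ≤ (3 * X j ^ 2) ^ 2 :=
        pow_le_pow_left₀ (Finset.sum_nonneg (fun _ _ => sq_nonneg _)) h4 2
      refine h6.trans (le_of_eq ?_)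
      ring
    have h7 := le_of_pow_le_pow_left₀ (by norm_num)
      (mul_nonneg (Real.sqrt_nonneg _) (L4_nonneg _)) h2
    exact h7.trans (mul_le_mul_of_nonneg_left hXle (Real.sqrt_nonneg _))
  have h8 : L4 (fun i : Fin k => nn (y i))
      ≤ Real.sqrt 3 * 𝔼 e : Fin k → ℤˣ, nn (∑ i, sg (e i) • y i) := by
    unfold nn
    refine (L4_sum (Finset.univ : Finset R) (fun i' (i : Fin k) => L4 (fun j => y i (i', j)))).trans ?_
    rw [Finset.expect_sum_comm, Finset.mul_sum]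
    exact Finset.sum_le_sum (fun i' _ => h1 i')
  have h9 : L4 (fun i : Fin k => nn (y i)) ^ 4
      ≤ (Real.sqrt 3 * 𝔼 e : Fin k → ℤˣ, nn (∑ i, sg (e i) • y i)) ^ 4 :=
    pow_le_pow_left₀ (L4_nonneg _) h8 4
  rw [L4_pow, mul_pow] at h9
  have h3 : Real.sqrt 3 ^ 4 = 9 := by
    have : Real.sqrt 3 ^ 4 = (Real.sqrt 3 ^ 2) ^ 2 := by ring
    rw [this, Real.sq_sqrt (by norm_num)]; norm_num
  rw [h3] at h9
  refine h9.trans (mul_le_mul_of_nonneg_left ?_ (by norm_num))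
  have h10 := sq_expect_le (fun e : Fin k → ℤˣ => nn (∑ i, sg (e i) • y i))
  calc (𝔼 e : Fin k → ℤˣ, nn (∑ i, sg (e i) • y i)) ^ 4
      = ((𝔼 e : Fin k → ℤˣ, nn (∑ i, sg (e i) • y i)) ^ 2) ^ 2 := by ring
    _ ≤ _ := pow_le_pow_left₀ (sq_nonneg _) h10 2

/-- cotype 4 of `ℓ_∞⁹` -/
lemma cot_sup (k : ℕ) (y : Fin k → Fin 9 → ℝ) :
    ∑ i, ‖y i‖ ^ 4 ≤ 9 * (𝔼 e : Fin k → ℤˣ, ‖∑ i, sg (e i) • y i‖ ^ 2) ^ 2 := by
  have h1 : ∀ i, ‖y i‖ ^ 4 ≤ ∑ j, y i j ^ 4 := by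
    intro i
    obtain ⟨j, hj⟩ : ∃ j, ‖y i‖ = ‖y i j‖ := by
      obtain ⟨j, -, hj⟩ := Finset.exists_mem_eq_sup' (Finset.univ_nonempty (α := Fin 9))
        (fun j => ‖y i j‖₊)
      refine ⟨j, ?_⟩
      have : ‖y i‖₊ = ‖y i j‖₊ := by
        rw [← hj, Pi.nnnorm_def, Finset.sup'_eq_sup]
      exact congrArg NNReal.toReal this
    rw [hj, Real.norm_eq_abs, Even.pow_abs (by decide)]
    exact Finset.single_le_sum (f := fun j => y i j ^ 4) (fun i _ => by positivity)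
      (Finset.mem_univ j)
  refine (Finset.sum_le_sum (fun i _ => h1 i)).trans ?_
  rw [Finset.sum_comm]
  have h2 : ∀ j ∈ (Finset.univ : Finset (Fin 9)), ∑ i, y i j ^ 4
      ≤ (𝔼 e : Fin k → ℤˣ, ‖∑ i, sg (e i) • y i‖ ^ 2) ^ 2 := by
    intro j _
    have h5 : ∑ i, y i j ^ 4 ≤ (∑ i, y i j ^ 2) ^ 2 := by
      have h := Finset.sum_sq_le_sq_sum_of_nonneg (s := (Finset.univ : Finset (Fin k)))
        (f := fun i => y i j ^ 2) (fun j _ => sq_nonneg _)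
      refine le_trans (le_of_eq ?_) h
      exact Finset.sum_congr rfl (fun j _ => by ring)
    refine h5.trans (pow_le_pow_left₀ (Finset.sum_nonneg (fun _ _ => sq_nonneg _)) ?_ 2)
    rw [← expect_sq]
    refine Finset.expect_le_expect (fun e _ => ?_)
    have h6 : |∑ i, sg (e i) * y i j| ≤ ‖∑ i, sg (e i) • y i‖ := by
      have := norm_le_pi_norm (∑ i, sg (e i) • y i) j
      rw [Real.norm_eq_abs] at this
      simpa [Finset.sum_apply] using this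
    rw [← sq_abs]
    exact pow_le_pow_left₀ (abs_nonneg _) h6 2
  refine (Finset.sum_le_sum h2).trans ?_
  simp

/-- combination of the two parts, `ℓ₂`-sum -/
lemma cot_comb (k : ℕ) (a b : Fin k → ℝ) (A B : ℝ) (hA : 0 ≤ A) (hB : 0 ≤ B)
    (ha : ∑ i, a i ^ 2 ≤ 9 * A ^ 2) (hb : ∑ i, b i ^ 2 ≤ 9 * B ^ 2) :
    ∑ i, (a i + b i) ^ 2 ≤ 9 * (A + B) ^ 2 := by
  have h1 : (∑ i, a i * b i) ^ 2 ≤ (9 * (A * B)) ^ 2 := by
    have h := Finset.sum_mul_sq_le_sq_mul_sq (Finset.univ : Finset (Fin k)) a b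
    have h0 : 0 ≤ ∑ i, b i ^ 2 := Finset.sum_nonneg (fun _ _ => sq_nonneg _)
    refine h.trans ?_
    calc (∑ i, a i ^ 2) * (∑ i, b i ^ 2) ≤ (9 * A ^ 2) * (9 * B ^ 2) :=
          mul_le_mul ha hb h0 (by positivity)
      _ = (9 * (A * B)) ^ 2 := by ring
  have h2 : ∑ i, a i * b i ≤ 9 * (A * B) := by
    exact (abs_le_of_sq_le_sq' h1 (by positivity)).2
  have h3 : ∑ i, (a i + b i) ^ 2 = ∑ i, a i ^ 2 + 2 * ∑ i, a i * b i + ∑ i, b i ^ 2 := by
    rw [Finset.mul_sum, ← Finset.sum_add_distrib, ← Finset.sum_add_distrib]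
    exact Finset.sum_congr rfl (fun i _ => by ring)
  rw [h3]
  nlinarith

end Pool.Agent.Helper890.Tp
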