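import Pool.Agent.Helper890.Tp.Psi

set_option autoImplicit false

namespace Pool.Agent.Helper890.Tp

open Finset
open scoped BigOperators

variable {R J : Type*} [Fintype R] [DecidableEq R] [Fintype J] [Nonempty J]

/-- the sum over the blocks of a partition -/
lemma sum_blocks {K : Type*} [Fintype K] [DecidableEq K] (c : R → K) (f : R → ℝ) :
    ∑ k, ∑ i ∈ univ.filter (fun i => c i = k), f i = ∑ i, f i :=
  Finset.sum_fiberwise _ _ _

lemma sum_Psi_HS {K : Type*} [Fintype K] [DecidableEq K] (A : R × J → R × J → ℝ) (c : R → K)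
    (hRJ : Fintype.card R = Fintype.card J) :
    ∑ k, Psi A (univ.filter (fun i => c i = k)) ≤ ∑ b, ∑ a, A a b ^ 2 := by
  refine (Finset.sum_le_sum (fun k _ => Psi_le_HS A _ hRJ)).trans (le_of_eq ?_)
  rw [sum_blocks c (fun i => ∑ j, ∑ a, A a (i, j) ^ 2), Fintype.sum_prod_type]

lemma sum_Psi_small {K : Type*} [Fintype K] [DecidableEq K] (A : R × J → R × J → ℝ) (c : R → K)
    (lam : ℝ) (hRJ : Fintype.card R = Fintype.card J) (hlam0 : 0 ≤ lam)
    (hrow : ∀ a, ∑ b, A a b ^ 2 ≤ 1)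
    (hlam : ∀ a b, A a b ^ 2 ≤ lam) :
    ∑ k, Psi A (univ.filter (fun i => c i = k))
      ≤ Real.sqrt (Fintype.card K * Fintype.card R *
        (3 * (1 + lam * Fintype.card R) * (Fintype.card R) ^ 2)) := by
  refine (Finset.sum_le_sum (fun k _ => Psi_le_small A _ lam hRJ hrow hlam)).trans ?_
  apply Real.le_sqrt_of_sq_le
  rw [← Finset.sum_product']
  refine sq_sum_le_card_mul_sum_sq.trans ?_
  rw [Finset.card_product]
  simp only [Finset.card_univ]
  push_cast
  refine mul_le_mul_of_nonneg_left ?_ (by positivity)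
  have hW : ∀ (k : K) (i' : R), 0 ≤ 3 * (1 + lam * (Fintype.card R : ℝ)) *
      ∑ j', ∑ i ∈ univ.filter (fun i => c i = k), ∑ j, A (i', j') (i, j) ^ 2 := by
    intro k i'
    refine mul_nonneg (by positivity) ?_
    exact Finset.sum_nonneg (fun _ _ => Finset.sum_nonneg (fun _ _ =>
      Finset.sum_nonneg (fun _ _ => sq_nonneg _)))
  have h1 : ∀ x ∈ (univ : Finset K) ×ˢ (univ : Finset R),
      Real.sqrt (3 * (1 + lam * (Fintype.card R : ℝ)) *
      ∑ j', ∑ i ∈ univ.filter (fun i => c i = x.1), ∑ j, A (x.2, j') (i, j) ^ 2) ^ 2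
      = 3 * (1 + lam * (Fintype.card R : ℝ)) *
      ∑ j', ∑ i ∈ univ.filter (fun i => c i = x.1), ∑ j, A (x.2, j') (i, j) ^ 2 :=
    fun x _ => Real.sq_sqrt (hW x.1 x.2)
  rw [Finset.sum_congr rfl h1, ← Finset.mul_sum]
  refine mul_le_mul_of_nonneg_left ?_ (by positivity)
  rw [Finset.sum_product_right]
  have h2 : ∀ i' : R, ∑ k, ∑ j' : J, ∑ i ∈ univ.filter (fun i => c i = k), ∑ j, A (i', j') (i, j) ^ 2
      ≤ Fintype.card R := by
    intro i'
    rw [Finset.sum_comm, hRJ]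
    have : ∀ j' ∈ (univ : Finset J), ∑ k, ∑ i ∈ univ.filter (fun i => c i = k),
        ∑ j, A (i', j') (i, j) ^ 2 ≤ 1 := by
      intro j' _
      rw [sum_blocks c (fun i => ∑ j, A (i', j') (i, j) ^ 2)]
      have := hrow (i', j')
      rwa [Fintype.sum_prod_type] at this
    refine (Finset.sum_le_sum this).trans ?_
    simp
  refine (Finset.sum_le_sum (fun i' _ => h2 i')).trans ?_
  simp [sq]

lemma sum_Psi_rows {K : Type*} [Fintype K] [DecidableEq K] (A : R × J → R × J → ℝ) (c : R → K)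
    (ρ s : ℝ) (hcol : ∀ b, ∑ a, A a b ^ 2 ≤ 1) (hρ0 : 0 ≤ ρ)
    (hρ : ∀ b, (((Finset.univ.filter (fun a => A a b ≠ 0)).card : ℕ) : ℝ) ≤ ρ)
    (hs : ∀ k, (((univ.filter (fun i => c i = k)).card : ℕ) : ℝ) = s) :
    ∑ k, Psi A (univ.filter (fun i => c i = k)) ≤ Fintype.card K * (s * ρ * s) := by
  have h : ∀ k ∈ (univ : Finset K), Psi A (univ.filter (fun i => c i = k)) ≤ s * ρ * s := by
    intro k _
    have := Psi_le_rows A (univ.filter (fun i => c i = k)) ρ hcol hρ
    rwa [hs k] at this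
  refine (Finset.sum_le_sum h).trans ?_
  simp

/-- a lower bound for the random vector -/
lemma lower (P : R × J → R × J → ℝ) (hRJ : Fintype.card R = Fintype.card J)
    (htr : (Fintype.card R : ℝ) ^ 2 / 4 ≤ ∑ a, P a a) :
    (Fintype.card R : ℝ) ^ 2 / 16 ≤ Psi P univ := by
  have hm0 : (0 : ℝ) < Fintype.card R := by
    rw [hRJ]; exact_mod_cast Fintype.card_pos
  have h1 : (Fintype.card R : ℝ) / 4 ≤ 𝔼 p : R → J, 𝔼 d : R → ℤˣ, nn (ap P univ p d) := by
    have h2 : 𝔼 p : R → J, 𝔼 d : R → ℤˣ, ∑ i, sg (d i) * ap P univ p d (i, p i)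
        ≤ 𝔼 p : R → J, 𝔼 d : R → ℤˣ, nn (ap P univ p d) := by
      refine Finset.expect_le_expect (fun p _ => Finset.expect_le_expect (fun d _ => ?_))
      refine le_trans (Finset.sum_le_sum (fun i _ => ?_)) (le_nn (ap P univ p d) p)
      refine (le_abs_self _).trans ?_
      rw [abs_mul, sg_abs, one_mul]
    refine le_trans ?_ h2
    have h3 : ∀ p : R → J, 𝔼 d : R → ℤˣ, ∑ i, sg (d i) * ap P univ p d (i, p i)
        = ∑ i, P (i, p i) (i, p i) := by
      intro p
      rw [Finset.expect_sum_comm]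
      refine Finset.sum_congr rfl (fun i _ => ?_)
      have := expect_sg_sum univ (fun k => P (i, p i) (k, p k)) i
      rw [if_pos (Finset.mem_univ _)] at this
      exact this
    simp_rw [h3]
    rw [Finset.expect_sum_comm]
    have h4 : ∀ i : R, 𝔼 p : R → J, P (i, p i) (i, p i)
        = (∑ j, P (i, j) (i, j)) / Fintype.card R := by
      intro i
      rw [expect_coord i (fun x => P (i, x) (i, x)), Fintype.expect_eq_sum_div_card, hRJ]
    simp_rw [h4]
    rw [← Finset.sum_div, le_div_iff₀ hm0]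
    rw [Fintype.sum_prod_type] at htr
    nlinarith [htr]
  have h5 : (𝔼 p : R → J, 𝔼 d : R → ℤˣ, nn (ap P univ p d)) ^ 2 ≤ Psi P univ := by
    unfold Psi
    refine (sq_expect_le _).trans (Finset.expect_le_expect (fun p _ => ?_))
    exact sq_expect_le _
  have h6 : ((Fintype.card R : ℝ) / 4) ^ 2
      ≤ (𝔼 p : R → J, 𝔼 d : R → ℤˣ, nn (ap P univ p d)) ^ 2 :=
    pow_le_pow_left₀ (by positivity) h1 2
  calc (Fintype.card R : ℝ) ^ 2 / 16 = ((Fintype.card R : ℝ) / 4) ^ 2 := by ring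
    _ ≤ _ := h6.trans h5

/-- the type 2 inequality for a set of vectors, in squared form -/
def T2 (E : Set (R × J → ℝ)) (T2c : ℝ) : Prop :=
  ∀ (K : ℕ) (y : Fin K → R × J → ℝ), (∀ k, y k ∈ E) →
    𝔼 e : Fin K → ℤˣ, nn (∑ k, sg (e k) • y k) ^ 2 ≤ T2c * ∑ k, nn (y k) ^ 2

lemma type_step (P : R × J → R × J → ℝ) (E : Set (R × J → ℝ)) (T : ℝ) (hT : T2 E T)
    (hE : ∀ (I : Finset R) (p : R → J) (d : R → ℤˣ), ap P I p d ∈ E)
    {K : ℕ} (c : R → Fin K) :
    Psi P univ ≤ T * ∑ k, Psi P (univ.filter (fun i => c i = k)) := by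
  classical
  have h1 : ∀ (p : R → J) (d : R → ℤˣ),
      𝔼 e : Fin K → ℤˣ, nn (ap P univ p (d * fun i => e (c i))) ^ 2
      ≤ T * ∑ k, nn (ap P (univ.filter (fun i => c i = k)) p d) ^ 2 := by
    intro p d
    refine le_trans (le_of_eq ?_) (hT K (fun k => ap P (univ.filter (fun i => c i = k)) p d)
      (fun k => hE _ _ _))
    refine Finset.expect_congr rfl (fun e _ => ?_)
    congr 2
    funext a
    rw [Finset.sum_apply]
    simp only [Pi.smul_apply, smul_eq_mul, ap]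
    rw [← Finset.sum_fiberwise (Finset.univ : Finset R) c]
    refine Finset.sum_congr rfl (fun k _ => ?_)
    rw [Finset.mul_sum]
    refine Finset.sum_congr rfl (fun i hi => ?_)
    rw [Finset.mem_filter] at hi
    rw [Pi.mul_apply, sg_mul, hi.2]
    ring
  have h2 : ∀ p : R → J, 𝔼 d : R → ℤˣ, nn (ap P univ p d) ^ 2
      ≤ T * ∑ k, 𝔼 d : R → ℤˣ, nn (ap P (univ.filter (fun i => c i = k)) p d) ^ 2 := by
    intro p
    have h3 : 𝔼 d : R → ℤˣ, nn (ap P univ p d) ^ 2
        = 𝔼 d : R → ℤˣ, 𝔼 e : Fin K → ℤˣ, nn (ap P univ p (d * fun i => e (c i))) ^ 2 := by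
      rw [Finset.expect_comm]
      have : ∀ e : Fin K → ℤˣ, 𝔼 d : R → ℤˣ, nn (ap P univ p (d * fun i => e (c i))) ^ 2
          = 𝔼 d : R → ℤˣ, nn (ap P univ p d) ^ 2 :=
        fun e => expect_mulRight (fun i => e (c i)) (fun d => nn (ap P univ p d) ^ 2)
      simp_rw [this]
      rw [Fintype.expect_const]
    rw [h3]
    refine (Finset.expect_le_expect (fun d _ => h1 p d)).trans (le_of_eq ?_)
    rw [← Finset.mul_expect, Finset.expect_sum_comm]
  unfold Psi
  refine (Finset.expect_le_expect (fun p _ => h2 p)).trans (le_of_eq ?_)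
  rw [← Finset.mul_expect, Finset.expect_sum_comm]

/-- Main estimate at a fixed scale. -/
theorem scale_estimate (P : R × J → R × J → ℝ) (E : Set (R × J → ℝ)) (T : ℝ) (hT : T2 E T)
    (hT0 : 0 ≤ T)
    (hE : ∀ (I : Finset R) (p : R → J) (d : R → ℤˣ), ap P I p d ∈ E)
    (hRJ : Fintype.card R = Fintype.card J)
    (htr : (Fintype.card R : ℝ) ^ 2 / 4 ≤ ∑ a, P a a)
    (hcol : ∀ b, ∑ a, P a b ^ 2 ≤ 1) (hrow : ∀ a, ∑ b, P a b ^ 2 ≤ 1)
    {K : ℕ} (c : R → Fin K) (s M : ℝ) (hs0 : 0 < s) (hM : 1 ≤ M)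
    (hs : ∀ k, (((univ.filter (fun i => c i = k)).card : ℕ) : ℝ) = s)
    (hKs : (K : ℝ) * s = Fintype.card R)
    (β : ℝ) (hβ : ∑ b, ∑ a, (if s / (M * Fintype.card R) < P a b ^ 2 ∧
      P a b ^ 2 ≤ s * M / Fintype.card R then P a b ^ 2 else 0) ≤ β * (Fintype.card R) ^ 2) :
    1 ≤ 48 * T * (Real.sqrt (3 * (1 / s + 1 / M)) + β + 1 / M) := by
  set m : ℝ := (Fintype.card R : ℝ) with hm
  have hm0 : (0 : ℝ) < m := by
    rw [hm, hRJ]; exact_mod_cast Fintype.card_pos
  have hM0 : 0 < M := by linarith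
  set l1 : ℝ := s / (M * m) with hl1
  set l2 : ℝ := s * M / m with hl2
  have hl1pos : 0 < l1 := by positivity
  have hl2pos : 0 < l2 := by positivity
  set A : R × J → R × J → ℝ := fun a b => if P a b ^ 2 ≤ l1 then P a b else 0 with hA
  set B : R × J → R × J → ℝ := fun a b => if l1 < P a b ^ 2 ∧ P a b ^ 2 ≤ l2 then P a b else 0
    with hB
  set C : R × J → R × J → ℝ := fun a b => if ¬ (P a b ^ 2 ≤ l1) ∧ ¬ (P a b ^ 2 ≤ l2)
    then P a b else 0 with hC
  have hPABC : P = fun a b => A a b + B a b + C a b := by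
    funext a b
    simp only [hA, hB, hC]
    by_cases h1 : P a b ^ 2 ≤ l1
    · simp [h1]
    · by_cases h2 : P a b ^ 2 ≤ l2
      · simp [h1, h2]
      · simp [h1, h2]
  -- bounds
  have hAsq : ∀ a b, A a b ^ 2 ≤ P a b ^ 2 := by
    intro a b
    simp only [hA]
    split_ifs
    · exact le_rfl
    · simpa using sq_nonneg (P a b)
  have hCsq : ∀ a b, C a b ^ 2 ≤ P a b ^ 2 := by
    intro a b
    simp only [hC]
    split_ifs
    · exact le_rfl
    · simpa using sq_nonneg (P a b)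
  have hAl : ∀ a b, A a b ^ 2 ≤ l1 := by
    intro a b
    simp only [hA]
    split_ifs with h
    · exact h
    · simpa using hl1pos.le
  have e1 := sum_Psi_small A c l1 hRJ hl1pos.le
    (fun a => (Finset.sum_le_sum (fun b _ => hAsq a b)).trans (hrow a)) hAl
  have e2 := sum_Psi_HS B c hRJ
  have hCcard : ∀ b, (((Finset.univ.filter (fun a => C a b ≠ 0)).card : ℕ) : ℝ) ≤ 1 / l2 := by
    intro b
    rw [le_div_iff₀ hl2pos]
    refine le_trans ?_ (hcol b)
    have : (((Finset.univ.filter (fun a => C a b ≠ 0)).card : ℕ) : ℝ) * l2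
        = ∑ _a ∈ Finset.univ.filter (fun a => C a b ≠ 0), l2 := by simp
    rw [this]
    refine le_trans (Finset.sum_le_sum (fun a ha => ?_))
      (Finset.sum_le_univ_sum_of_nonneg (f := fun a => P a b ^ 2) (fun a => sq_nonneg _))
    rw [Finset.mem_filter] at ha
    by_contra hcon
    push Not at hcon
    apply ha.2
    simp only [hC]
    rw [if_neg]
    rintro ⟨_, h⟩
    exact h hcon.le
  have e3 := sum_Psi_rows C c (1 / l2) s
    (fun b => (Finset.sum_le_sum (fun a _ => hCsq a b)).trans (hcol b)) (by positivity) hCcard hs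
  have hlow := lower P hRJ htr
  have hstep := type_step P E T hT hE c
  have hsum : ∑ k, Psi P (univ.filter (fun i => c i = k))
      ≤ 3 * (∑ k, Psi A (univ.filter (fun i => c i = k))
        + ∑ k, Psi B (univ.filter (fun i => c i = k))
        + ∑ k, Psi C (univ.filter (fun i => c i = k))) := by
    rw [← Finset.sum_add_distrib, ← Finset.sum_add_distrib, Finset.mul_sum]
    refine Finset.sum_le_sum (fun k _ => ?_)
    conv_lhs => rw [hPABC]
    exact Psi_add3 A B C _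
  have hB2 : ∑ b, ∑ a, B a b ^ 2 ≤ β * m ^ 2 := by
    refine le_trans (le_of_eq ?_) hβ
    refine Finset.sum_congr rfl (fun b _ => Finset.sum_congr rfl (fun a _ => ?_))
    simp only [hB]
    split_ifs
    · rfl
    · simp
  simp only [Fintype.card_fin] at e1 e3
  have hKval : (K : ℝ) = m / s := by rw [eq_div_iff hs0.ne']; exact hKs
  have e1' : Real.sqrt ((K : ℝ) * (Fintype.card R : ℝ) *
        (3 * (1 + l1 * (Fintype.card R : ℝ)) * ((Fintype.card R : ℝ)) ^ 2))
      = m ^ 2 * Real.sqrt (3 * (1 / s + 1 / M)) := by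
    rw [← hm]
    have : (K : ℝ) * m * (3 * (1 + l1 * m) * m ^ 2) = (m ^ 2) ^ 2 * (3 * (1 / s + 1 / M)) := by
      rw [hKval, hl1]
      field_simp
    rw [this, Real.sqrt_mul (by positivity), Real.sqrt_sq (by positivity)]
  have e3' : (K : ℝ) * (s * (1 / l2) * s) = m ^ 2 * (1 / M) := by
    rw [hKval, hl2]
    field_simp
  rw [e1'] at e1
  rw [e3'] at e3
  have hfin : m ^ 2 / 16 ≤ T * (3 * (m ^ 2 * Real.sqrt (3 * (1 / s + 1 / M)) + β * m ^ 2
      + m ^ 2 * (1 / M))) := by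
    refine hlow.trans (hstep.trans (mul_le_mul_of_nonneg_left (hsum.trans ?_) hT0))
    have := e2.trans hB2
    linarith
  have hm2 : 0 < m ^ 2 := by positivity
  have : m ^ 2 * 1 ≤ m ^ 2 * (48 * T * (Real.sqrt (3 * (1 / s + 1 / M)) + β + 1 / M)) := by
    nlinarith [hfin]
  exact le_of_mul_le_mul_left this hm2

end Pool.Agent.Helper890.Tp
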