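import Pool.Agent.Helper890.Tp.Sign

set_option autoImplicit false

namespace Pool.Agent.Helper890.Tp

open Finset
open scoped BigOperators

section L4
variable {J : Type*} [Fintype J]

/-- the `ℓ₄` norm of a vector -/
noncomputable def L4 (v : J → ℝ) : ℝ := ‖(WithLp.toLp 4 v : PiLp 4 (fun _ : J => ℝ))‖

instance fact4 : Fact ((1 : ENNReal) ≤ 4) := ⟨by norm_num⟩

lemma L4_nonneg (v : J → ℝ) : 0 ≤ L4 v := norm_nonneg _

lemma L4_pow (v : J → ℝ) : L4 v ^ 4 = ∑ j, v j ^ 4 := by
  unfold L4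
  have h := PiLp.norm_eq_sum (p := 4) (by norm_num) (WithLp.toLp 4 v : PiLp 4 (fun _ : J => ℝ))
  rw [h]
  have h4 : (4 : ENNReal).toReal = 4 := by norm_num
  rw [h4]
  have hs : 0 ≤ ∑ i, ‖(WithLp.toLp 4 v : PiLp 4 (fun _ : J => ℝ)) i‖ ^ (4 : ℝ) :=
    Finset.sum_nonneg (fun i _ => by positivity)
  rw [← Real.rpow_natCast, ← Real.rpow_mul hs]
  norm_num
  refine Finset.sum_congr rfl (fun i _ => ?_)
  exact Even.pow_abs (by decide) _

lemma L4_add (v w : J → ℝ) : L4 (fun j => v j + w j) ≤ L4 v + L4 w := by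
  unfold L4
  exact norm_add_le (WithLp.toLp 4 v : PiLp 4 (fun _ : J => ℝ)) (WithLp.toLp 4 w)

lemma L4_smul (c : ℝ) (v : J → ℝ) : L4 (fun j => c * v j) = |c| * L4 v := by
  unfold L4
  have := norm_smul c (WithLp.toLp 4 v : PiLp 4 (fun _ : J => ℝ))
  rw [Real.norm_eq_abs] at this
  exact this

lemma L4_zero : L4 (fun _ : J => (0 : ℝ)) = 0 := by
  have := L4_smul (0 : ℝ) (fun _ : J => (0 : ℝ))
  simpa using this

lemma L4_eq_zero {v : J → ℝ} (h : L4 v = 0) (j : J) : v j = 0 := by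
  have h4 := L4_pow v
  rw [h] at h4
  have : ∑ j, v j ^ 4 = 0 := by rw [← h4]; norm_num
  rw [Finset.sum_eq_zero_iff_of_nonneg (fun i _ => by positivity)] at this
  have := this j (Finset.mem_univ j)
  exact pow_eq_zero_iff (by norm_num) |>.mp this

lemma L4_sum {S : Type*} (s : Finset S) (v : S → J → ℝ) :
    L4 (fun j => ∑ k ∈ s, v k j) ≤ ∑ k ∈ s, L4 (v k) := by
  classical
  induction s using Finset.induction_on with
  | empty => simp [L4_zero]
  | insert i s hi ih =>
    simp only [Finset.sum_insert hi]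
    exact (L4_add _ _).trans (add_le_add_right ih _)

lemma L4_mono {v w : J → ℝ} (h : ∀ j, |v j| ≤ |w j|) : L4 v ≤ L4 w := by
  have : L4 v ^ 4 ≤ L4 w ^ 4 := by
    rw [L4_pow, L4_pow]
    refine Finset.sum_le_sum (fun j _ => ?_)
    rw [← Even.pow_abs (by decide : Even 4) (v j), ← Even.pow_abs (by decide : Even 4) (w j)]
    exact pow_le_pow_left₀ (abs_nonneg _) (h j) 4
  exact le_of_pow_le_pow_left₀ (by norm_num) (L4_nonneg _) this

lemma L4_abs (v : J → ℝ) : L4 (fun j => |v j|) = L4 v :=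
  le_antisymm (L4_mono (fun j => by simp)) (L4_mono (fun j => by simp))

lemma L4_expect {Ω : Type*} [Fintype Ω] (v : Ω → J → ℝ) :
    L4 (fun j => 𝔼 w, v w j) ≤ 𝔼 w, L4 (v w) := by
  have h1 : (fun j => 𝔼 w, v w j) = (fun j => (Fintype.card Ω : ℝ)⁻¹ * ∑ w, v w j) := by
    funext j
    rw [Fintype.expect_eq_sum_div_card, div_eq_inv_mul]
  rw [h1, L4_smul, abs_of_nonneg (by positivity), Fintype.expect_eq_sum_div_card, div_eq_inv_mul]
  exact mul_le_mul_of_nonneg_left (L4_sum _ _) (by positivity)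

lemma le_L4 (v : J → ℝ) (j : J) : |v j| ≤ L4 v := by
  have : |v j| ^ 4 ≤ L4 v ^ 4 := by
    rw [L4_pow, Even.pow_abs (by decide : Even 4)]
    exact Finset.single_le_sum (f := fun j => v j ^ 4) (fun i _ => by positivity) (Finset.mem_univ j)
  exact le_of_pow_le_pow_left₀ (by norm_num) (L4_nonneg _) this

lemma L4_sq_le (v : J → ℝ) : L4 v ^ 2 ≤ ∑ j, v j ^ 2 := by
  have h0 : 0 ≤ ∑ j, v j ^ 2 := Finset.sum_nonneg (fun i _ => sq_nonneg _)
  have : (L4 v ^ 2) ^ 2 ≤ (∑ j, v j ^ 2) ^ 2 := by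
    rw [← pow_mul, L4_pow]
    have h := Finset.sum_sq_le_sq_sum_of_nonneg (s := (Finset.univ : Finset J))
      (f := fun j => v j ^ 2) (fun j _ => sq_nonneg _)
    refine le_trans (le_of_eq ?_) h
    exact Finset.sum_congr rfl (fun j _ => by ring)
  exact le_of_pow_le_pow_left₀ (by norm_num) h0 this

end L4

section N
variable {R J : Type*} [Fintype R] [Fintype J]

/-- the norm of `ℓ₁(ℓ₄)` -/
noncomputable def nn (x : R × J → ℝ) : ℝ := ∑ i, L4 (fun j => x (i, j))

lemma nn_nonneg (x : R × J → ℝ) : 0 ≤ nn x := Finset.sum_nonneg (fun _ _ => L4_nonneg _)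

lemma nn_add (x y : R × J → ℝ) : nn (x + y) ≤ nn x + nn y := by
  unfold nn
  rw [← Finset.sum_add_distrib]
  exact Finset.sum_le_sum (fun i _ => L4_add _ _)

lemma nn_smul (c : ℝ) (x : R × J → ℝ) : nn (c • x) = |c| * nn x := by
  unfold nn
  rw [Finset.mul_sum]
  exact Finset.sum_congr rfl (fun i _ => L4_smul _ _)

lemma nn_eq_zero {x : R × J → ℝ} (h : nn x = 0) : x = 0 := by
  unfold nn at h
  rw [Finset.sum_eq_zero_iff_of_nonneg (fun i _ => L4_nonneg _)] at h
  funext a
  exact L4_eq_zero (h a.1 (Finset.mem_univ _)) a.2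

lemma nn_sq_le (x : R × J → ℝ) :
    nn x ^ 2 ≤ Fintype.card R * ∑ i, L4 (fun j => x (i, j)) ^ 2 := by
  unfold nn
  have := sq_sum_le_card_mul_sum_sq (s := (Finset.univ : Finset R))
    (f := fun i => L4 (fun j => x (i, j)))
  simpa using this

lemma nn_sq_le' (x : R × J → ℝ) : nn x ^ 2 ≤ Fintype.card R * ∑ a, x a ^ 2 := by
  refine (nn_sq_le x).trans (mul_le_mul_of_nonneg_left ?_ (by positivity))
  rw [Fintype.sum_prod_type]
  exact Finset.sum_le_sum (fun i _ => L4_sq_le _)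

/-- if only few rows are non-zero -/
lemma nn_sq_le_rows (x : R × J → ℝ) (s : Finset R) (hs : ∀ i, i ∉ s → ∀ j, x (i, j) = 0) :
    nn x ^ 2 ≤ s.card * ∑ a, x a ^ 2 := by
  have h1 : nn x = ∑ i ∈ s, L4 (fun j => x (i, j)) := by
    unfold nn
    symm
    apply Finset.sum_subset (Finset.subset_univ s)
    intro i _ hi
    have : (fun j => x (i, j)) = fun _ => (0 : ℝ) := funext (hs i hi)
    rw [this, L4_zero]
  rw [h1]
  refine (sq_sum_le_card_mul_sum_sq).trans (mul_le_mul_of_nonneg_left ?_ (by positivity))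
  rw [Fintype.sum_prod_type]
  refine (Finset.sum_le_sum (fun i _ => L4_sq_le _)).trans ?_
  exact Finset.sum_le_univ_sum_of_nonneg (fun i => Finset.sum_nonneg (fun j _ => sq_nonneg _))

lemma le_nn (x : R × J → ℝ) (f : R → J) : ∑ i, |x (i, f i)| ≤ nn x :=
  Finset.sum_le_sum (fun i _ => le_L4 (fun j => x (i, j)) (f i))

lemma nn_add3_sq (x y z : R × J → ℝ) :
    nn (x + y + z) ^ 2 ≤ 3 * (nn x ^ 2 + nn y ^ 2 + nn z ^ 2) := by
  have h1 := nn_add (x + y) z
  have h2 := nn_add x y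
  have h0 := nn_nonneg (x + y + z)
  have h3 : nn (x + y + z) ^ 2 ≤ (nn x + nn y + nn z) ^ 2 :=
    pow_le_pow_left₀ h0 (by linarith) 2
  nlinarith [sq_nonneg (nn x - nn y), sq_nonneg (nn y - nn z), sq_nonneg (nn x - nn z)]

end N

section Fun
/-! ### averages over uniformly random functions -/
variable {R J : Type*} [Fintype R] [DecidableEq R] [Fintype J] [Nonempty J]

lemma expect_prod (f : R → J → ℝ) : 𝔼 p : R → J, ∏ i, f i (p i) = ∏ i, 𝔼 x, f i x := by
  classical
  simp_rw [Fintype.expect_eq_sum_div_card]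
  rw [Finset.prod_div_distrib]
  congr 1
  · rw [Finset.prod_univ_sum]
    rw [Fintype.piFinset_univ]
  · simp

lemma expect_coord (i : R) (g : J → ℝ) : 𝔼 p : R → J, g (p i) = 𝔼 x, g x := by
  have h := expect_prod (R := R) (J := J) (fun k x => if k = i then g x else 1)
  have h1 : ∀ p : R → J, ∏ k, (if k = i then g (p k) else 1) = g (p i) := by
    intro p
    rw [Finset.prod_eq_single i]
    · simp
    · intro b _ hb; simp [hb]
    · intro h; exact absurd (Finset.mem_univ _) h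
  simp_rw [h1] at h
  rw [h, Finset.prod_eq_single i]
  · simp
  · intro b _ hb
    simp [hb]
  · intro h; exact absurd (Finset.mem_univ _) h

lemma expect_coord2 {i k : R} (hik : i ≠ k) (g h : J → ℝ) :
    𝔼 p : R → J, g (p i) * h (p k) = (𝔼 x, g x) * (𝔼 x, h x) := by
  have h' := expect_prod (R := R) (J := J)
    (fun l x => (if l = i then g x else 1) * (if l = k then h x else 1))
  have h1 : ∀ p : R → J, ∏ l, ((if l = i then g (p l) else 1) * (if l = k then h (p l) else 1))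
      = g (p i) * h (p k) := by
    intro p
    rw [Finset.prod_mul_distrib]
    congr 1
    · rw [Finset.prod_eq_single i]
      · simp
      · intro b _ hb; simp [hb]
      · intro h; exact absurd (Finset.mem_univ _) h
    · rw [Finset.prod_eq_single k]
      · simp
      · intro b _ hb; simp [hb]
      · intro h; exact absurd (Finset.mem_univ _) h
  simp_rw [h1] at h'
  rw [h']
  have h2 : ∀ l : R, (𝔼 x : J, (if l = i then g x else 1) * (if l = k then h x else 1))
      = (if l = i then 𝔼 x, g x else 1) * (if l = k then 𝔼 x, h x else 1) := by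
    intro l
    by_cases h3 : l = i
    · have h4 : l ≠ k := fun h5 => hik (h3 ▸ h5)
      simp [h3, hik]
    · by_cases h4 : l = k
      · simp [h4, Ne.symm hik]
      · simp [h3, h4]
  simp_rw [h2]
  rw [Finset.prod_mul_distrib]
  congr 1
  · rw [Finset.prod_eq_single i]
    · simp
    · intro b _ hb; simp [hb]
    · intro h; exact absurd (Finset.mem_univ _) h
  · rw [Finset.prod_eq_single k]
    · simp
    · intro b _ hb; simp [hb]
    · intro h; exact absurd (Finset.mem_univ _) h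

lemma expect_sum_sq (s : Finset R) (X : R → J → ℝ) (hX : ∀ i x, 0 ≤ X i x) :
    𝔼 p : R → J, (∑ i ∈ s, X i (p i)) ^ 2
      ≤ (∑ i ∈ s, 𝔼 x, X i x ^ 2) + (∑ i ∈ s, 𝔼 x, X i x) ^ 2 := by
  have h : ∀ p : R → J, (∑ i ∈ s, X i (p i)) ^ 2 = ∑ i ∈ s, ∑ k ∈ s, X i (p i) * X k (p k) := by
    intro p
    rw [sq, Finset.sum_mul_sum]
  simp_rw [h]
  rw [Finset.expect_sum_comm]
  simp_rw [Finset.expect_sum_comm (Finset.univ : Finset (R → J)) s]
  rw [sq, Finset.sum_mul_sum, ← Finset.sum_add_distrib]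
  refine Finset.sum_le_sum (fun i hi => ?_)
  have hnn : ∀ k, 0 ≤ 𝔼 x, X k x := fun k => Finset.expect_nonneg (fun x _ => hX k x)
  rw [← Finset.add_sum_erase s _ hi]
  refine add_le_add ?_ ?_
  · have := expect_coord (R := R) i (fun x => X i x ^ 2)
    simp_rw [← sq]
    exact this.le
  · refine le_trans (le_of_eq ?_) (Finset.sum_le_sum_of_subset_of_nonneg (Finset.erase_subset i s)
      (fun k _ _ => mul_nonneg (hnn i) (hnn k)))
    refine Finset.sum_congr rfl (fun k hk => ?_)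
    exact expect_coord2 (Ne.symm (Finset.ne_of_mem_erase hk)) (X i) (X k)

end Fun

end Pool.Agent.Helper890.Tp
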