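import Pool.Agent.Helper890.Tp.Norm

set_option autoImplicit false

namespace Pool.Agent.Helper890.Tp

open Finset
open scoped BigOperators

variable {R J : Type*} [Fintype R] [DecidableEq R] [Fintype J] [Nonempty J]

/-- the random vector `∑_{i ∈ I} δᵢ A e_{(i, p i)}` -/
noncomputable def ap (A : R × J → R × J → ℝ) (I : Finset R) (p : R → J) (d : R → ℤˣ) :
    R × J → ℝ := fun a => ∑ i ∈ I, sg (d i) * A a (i, p i)

noncomputable def Psi (A : R × J → R × J → ℝ) (I : Finset R) : ℝ :=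
  𝔼 p : R → J, 𝔼 d : R → ℤˣ, nn (ap A I p d) ^ 2

lemma ap_add3 (A B C : R × J → R × J → ℝ) (I : Finset R) (p : R → J) (d : R → ℤˣ) :
    ap (fun a b => A a b + B a b + C a b) I p d = ap A I p d + ap B I p d + ap C I p d := by
  funext a
  simp only [ap, Pi.add_apply, mul_add, Finset.sum_add_distrib]

lemma Psi_add3 (A B C : R × J → R × J → ℝ) (I : Finset R) :
    Psi (fun a b => A a b + B a b + C a b) I ≤ 3 * (Psi A I + Psi B I + Psi C I) := by
  unfold Psi
  rw [← Finset.expect_add_distrib, ← Finset.expect_add_distrib, Finset.mul_expect]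
  refine Finset.expect_le_expect (fun p _ => ?_)
  rw [← Finset.expect_add_distrib, ← Finset.expect_add_distrib, Finset.mul_expect]
  refine Finset.expect_le_expect (fun d _ => ?_)
  rw [ap_add3]
  exact nn_add3_sq _ _ _

lemma expect_ap_sq (A : R × J → R × J → ℝ) (I : Finset R) (p : R → J) :
    𝔼 d : R → ℤˣ, ∑ a, ap A I p d a ^ 2 = ∑ a, ∑ i ∈ I, A a (i, p i) ^ 2 := by
  rw [Finset.expect_sum_comm]
  refine Finset.sum_congr rfl (fun a _ => ?_)
  exact expect_sq I (fun i => A a (i, p i))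

/-- bound (B) -/
lemma Psi_le_HS (A : R × J → R × J → ℝ) (I : Finset R)
    (hRJ : Fintype.card R = Fintype.card J) :
    Psi A I ≤ ∑ i ∈ I, ∑ j, ∑ a, A a (i, j) ^ 2 := by
  unfold Psi
  have h1 : ∀ p : R → J, 𝔼 d : R → ℤˣ, nn (ap A I p d) ^ 2
      ≤ (Fintype.card R : ℝ) * ∑ i ∈ I, ∑ a, A a (i, p i) ^ 2 := by
    intro p
    refine (Finset.expect_le_expect (fun d _ => nn_sq_le' (ap A I p d))).trans ?_
    rw [← Finset.mul_expect, expect_ap_sq, Finset.sum_comm]
  refine (Finset.expect_le_expect (fun p _ => h1 p)).trans ?_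
  rw [← Finset.mul_expect, Finset.expect_sum_comm, Finset.mul_sum]
  refine Finset.sum_le_sum (fun i _ => ?_)
  rw [expect_coord i (fun x => ∑ a, A a (i, x) ^ 2), Fintype.expect_eq_sum_div_card, hRJ]
  have : (0 : ℝ) < Fintype.card J := by exact_mod_cast Fintype.card_pos
  rw [mul_div_cancel₀ _ this.ne']

/-- bound (C) -/
lemma Psi_le_rows (A : R × J → R × J → ℝ) (I : Finset R) (ρ : ℝ)
    (hcol : ∀ b, ∑ a, A a b ^ 2 ≤ 1)
    (hρ : ∀ b, (((Finset.univ.filter (fun a => A a b ≠ 0)).card : ℕ) : ℝ) ≤ ρ) :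
    Psi A I ≤ (I.card * ρ) * I.card := by
  classical
  unfold Psi
  have h1 : ∀ p : R → J, 𝔼 d : R → ℤˣ, nn (ap A I p d) ^ 2 ≤ (I.card * ρ) * I.card := by
    intro p
    set s : Finset R := I.biUnion (fun i => (Finset.univ.filter (fun a => A a (i, p i) ≠ 0)).image
      Prod.fst) with hs
    have hcard : (s.card : ℝ) ≤ I.card * ρ := by
      have h2 : s.card ≤ ∑ i ∈ I, (Finset.univ.filter (fun a => A a (i, p i) ≠ 0)).card := by
        refine Finset.card_biUnion_le.trans (Finset.sum_le_sum (fun i _ => Finset.card_image_le))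
      have h3 : (s.card : ℝ) ≤ ∑ i ∈ I,
          (((Finset.univ.filter (fun a => A a (i, p i) ≠ 0)).card : ℕ) : ℝ) := by exact_mod_cast h2
      refine h3.trans ((Finset.sum_le_sum (fun i _ => hρ (i, p i))).trans ?_)
      simp
    have hρ0 : (0 : ℝ) ≤ I.card * ρ := le_trans (by positivity) hcard
    have h4 : ∀ d : R → ℤˣ, nn (ap A I p d) ^ 2 ≤ (I.card * ρ) * ∑ a, ap A I p d a ^ 2 := by
      intro d
      refine (nn_sq_le_rows (ap A I p d) s ?_).trans
        (mul_le_mul_of_nonneg_right hcard (Finset.sum_nonneg (fun a _ => sq_nonneg _)))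
      intro i' hi' j'
      unfold ap
      refine Finset.sum_eq_zero (fun i hi => ?_)
      have : A (i', j') (i, p i) = 0 := by
        by_contra hne
        apply hi'
        rw [hs, Finset.mem_biUnion]
        refine ⟨i, hi, ?_⟩
        rw [Finset.mem_image]
        exact ⟨(i', j'), by simp [hne], rfl⟩
      rw [this, mul_zero]
    refine (Finset.expect_le_expect (fun d _ => h4 d)).trans ?_
    rw [← Finset.mul_expect, expect_ap_sq, Finset.sum_comm]
    refine mul_le_mul_of_nonneg_left ?_ hρ0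
    refine (Finset.sum_le_sum (fun i _ => hcol (i, p i))).trans ?_
    simp
  refine (Finset.expect_le_expect (fun p _ => h1 p)).trans ?_
  rw [Fintype.expect_const]

/-- bound (A), one block -/
lemma Psi_le_small (A : R × J → R × J → ℝ) (I : Finset R) (lam : ℝ)
    (hRJ : Fintype.card R = Fintype.card J)
    (hrow : ∀ a, ∑ b, A a b ^ 2 ≤ 1)
    (hlam : ∀ a b, A a b ^ 2 ≤ lam) :
    Psi A I ≤ ∑ i', Real.sqrt (3 * (1 + lam * Fintype.card R) *
      ∑ j', ∑ i ∈ I, ∑ j, A (i', j') (i, j) ^ 2) := by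
  set m : ℝ := (Fintype.card R : ℝ) with hm
  have hm0 : 0 < m := by
    rw [hm, hRJ]; exact_mod_cast Fintype.card_pos
  have hmJ : (Fintype.card J : ℝ) = m := by rw [hm, hRJ]
  -- the fourth moment of a row
  have key : ∀ i' : R, 𝔼 p : R → J, 𝔼 d : R → ℤˣ, L4 (fun j' => ap A I p d (i', j')) ^ 4
      ≤ 3 * (1 + lam * m) * (∑ j', ∑ i ∈ I, ∑ j, A (i', j') (i, j) ^ 2) / m ^ 2 := by
    intro i'
    simp_rw [L4_pow]
    have h1 : ∀ p : R → J, 𝔼 d : R → ℤˣ, ∑ j', ap A I p d (i', j') ^ 4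
        ≤ ∑ j', 3 * (∑ i ∈ I, A (i', j') (i, p i) ^ 2) ^ 2 := by
      intro p
      rw [Finset.expect_sum_comm]
      exact Finset.sum_le_sum (fun j' _ => expect_four I (fun i => A (i', j') (i, p i)))
    refine (Finset.expect_le_expect (fun p _ => h1 p)).trans ?_
    rw [Finset.expect_sum_comm, Finset.mul_sum, Finset.sum_div]
    refine Finset.sum_le_sum (fun j' _ => ?_)
    rw [← Finset.mul_expect]
    have h2 := expect_sum_sq (J := J) I (fun i x => A (i', j') (i, x) ^ 2)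
      (fun i x => sq_nonneg _)
    set V : ℝ := ∑ i ∈ I, ∑ j, A (i', j') (i, j) ^ 2 with hV
    have hV0 : 0 ≤ V := Finset.sum_nonneg (fun i _ => Finset.sum_nonneg (fun j _ => sq_nonneg _))
    have hV1 : V ≤ 1 := by
      refine le_trans ?_ (hrow (i', j'))
      rw [Fintype.sum_prod_type]
      exact Finset.sum_le_univ_sum_of_nonneg (fun i => Finset.sum_nonneg (fun j _ => sq_nonneg _))
    have h3 : ∑ i ∈ I, 𝔼 x, A (i', j') (i, x) ^ 2 = V / m := by
      rw [hV, Finset.sum_div]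
      refine Finset.sum_congr rfl (fun i _ => ?_)
      rw [Fintype.expect_eq_sum_div_card, hmJ]
    have h4 : ∑ i ∈ I, 𝔼 x, (A (i', j') (i, x) ^ 2) ^ 2 ≤ lam * V / m := by
      have : ∀ i ∈ I, 𝔼 x, (A (i', j') (i, x) ^ 2) ^ 2 ≤ lam * 𝔼 x, A (i', j') (i, x) ^ 2 := by
        intro i _
        rw [Finset.mul_expect]
        refine Finset.expect_le_expect (fun x _ => ?_)
        rw [sq (A (i', j') (i, x) ^ 2)]
        exact mul_le_mul_of_nonneg_right (hlam _ _) (sq_nonneg _)
      refine (Finset.sum_le_sum this).trans ?_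
      rw [← Finset.mul_sum, h3, mul_div_assoc]
    rw [h3] at h2
    have h5 : (V / m) ^ 2 ≤ V / m ^ 2 := by
      rw [div_pow]
      apply div_le_div_of_nonneg_right _ (by positivity)
      nlinarith
    have h6 : 3 * (1 + lam * m) * V / m ^ 2 = 3 * (lam * V / m + V / m ^ 2) := by
      field_simp
      ring
    rw [h6]
    linarith [h2, h4, h5]
  -- pass to the norm
  have h7 : Psi A I ≤ m * ∑ i', 𝔼 p : R → J, 𝔼 d : R → ℤˣ,
      L4 (fun j' => ap A I p d (i', j')) ^ 2 := by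
    unfold Psi
    refine (Finset.expect_le_expect (fun p _ => Finset.expect_le_expect
      (fun d _ => nn_sq_le (ap A I p d)))).trans (le_of_eq ?_)
    simp_rw [← Finset.mul_expect]
    congr 1
    rw [← Finset.expect_sum_comm]
    refine Finset.expect_congr rfl (fun p _ => ?_)
    rw [Finset.expect_sum_comm]
  refine h7.trans ?_
  rw [Finset.mul_sum]
  refine Finset.sum_le_sum (fun i' _ => ?_)
  apply Real.le_sqrt_of_sq_le
  rw [mul_pow]
  have h8 : (𝔼 p : R → J, 𝔼 d : R → ℤˣ, L4 (fun j' => ap A I p d (i', j')) ^ 2) ^ 2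
      ≤ 𝔼 p : R → J, 𝔼 d : R → ℤˣ, L4 (fun j' => ap A I p d (i', j')) ^ 4 := by
    refine (sq_expect_le _).trans (Finset.expect_le_expect (fun p _ => ?_))
    refine (sq_expect_le _).trans (Finset.expect_le_expect (fun d _ => ?_))
    rw [← pow_mul]
  calc m ^ 2 * (𝔼 p : R → J, 𝔼 d : R → ℤˣ, L4 (fun j' => ap A I p d (i', j')) ^ 2) ^ 2
      ≤ m ^ 2 * (3 * (1 + lam * m) * (∑ j', ∑ i ∈ I, ∑ j, A (i', j') (i, j) ^ 2) / m ^ 2) :=
        mul_le_mul_of_nonneg_left (h8.trans (key i')) (by positivity)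
    _ = 3 * (1 + lam * m) * ∑ j', ∑ i ∈ I, ∑ j, A (i', j') (i, j) ^ 2 := by
        field_simp

end Pool.Agent.Helper890.Tp
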