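import Pool.Agent.Helper890.Tp.Main

set_option autoImplicit false

namespace Pool.Agent.Helper890.Tp

open Finset
open scoped BigOperators

/-- a partition of `Fin (K * s)` into `K` blocks of size `s` -/
lemma exists_blocks (m K s : ℕ) (h : m = K * s) :
    ∃ c : Fin m → Fin K, ∀ k, (univ.filter (fun i => c i = k)).card = s := by
  subst h
  refine ⟨fun i => (finProdFinEquiv.symm i).1, fun k => ?_⟩
  have : (univ.filter (fun i : Fin (K * s) => (finProdFinEquiv.symm i).1 = k)).card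
      = (univ : Finset (Fin s)).card := by
    symm
    refine Finset.card_bij (fun j _ => finProdFinEquiv (k, j)) ?_ ?_ ?_
    · intro j _
      rw [Finset.mem_filter]
      exact ⟨Finset.mem_univ _, by rw [Equiv.symm_apply_apply]⟩
    · intro a _ b _ hab
      have := finProdFinEquiv.injective hab
      exact (Prod.ext_iff.mp this).2
    · intro i hi
      rw [Finset.mem_filter] at hi
      refine ⟨(finProdFinEquiv.symm i).2, Finset.mem_univ _, ?_⟩
      have : (k, (finProdFinEquiv.symm i).2) = finProdFinEquiv.symm i := by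
        ext <;> simp [← hi.2]
      rw [this, Equiv.apply_symm_apply]
  rw [this, Finset.card_univ, Fintype.card_fin]

/-- the windows `(t^{2l}/m, t^{2l+2}/m]` are disjoint -/
lemma windows (t : ℕ) (ht : 1 ≤ t) (m x : ℝ) (hm : 0 < m) (hx : 0 ≤ x) :
    ∑ l ∈ Finset.range t, (if (t : ℝ) ^ (2 * l) / m < x ∧ x ≤ (t : ℝ) ^ (2 * l + 2) / m
      then x else 0) ≤ x := by
  by_cases h : ∃ l ∈ Finset.range t, (t : ℝ) ^ (2 * l) / m < x ∧ x ≤ (t : ℝ) ^ (2 * l + 2) / m
  · obtain ⟨l, hl, h1, h2⟩ := h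
    rw [Finset.sum_eq_single_of_mem l hl]
    · rw [if_pos ⟨h1, h2⟩]
    · intro k _ hkl
      rw [if_neg]
      rintro ⟨h3, h4⟩
      have ht' : (1 : ℝ) ≤ t := by exact_mod_cast ht
      rcases lt_or_gt_of_ne hkl with h5 | h5
      · have : (t : ℝ) ^ (2 * k + 2) / m ≤ (t : ℝ) ^ (2 * l) / m := by
          apply div_le_div_of_nonneg_right _ hm.le
          exact pow_le_pow_right₀ ht' (by omega)
        linarith
      · have : (t : ℝ) ^ (2 * l + 2) / m ≤ (t : ℝ) ^ (2 * k) / m := by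
          apply div_le_div_of_nonneg_right _ hm.le
          exact pow_le_pow_right₀ ht' (by omega)
        linarith
  · push Not at h
    refine le_trans (le_of_eq (Finset.sum_eq_zero (fun l hl => ?_))) hx
    rw [if_neg]
    rintro ⟨h1, h2⟩
    exact absurd h2 (not_le.mpr (h l hl h1))

theorem main_estimate (t : ℕ) (ht : 1 ≤ t) (m : ℕ) (hm : m = t ^ (2 * t))
    (P : Fin m × Fin m → Fin m × Fin m → ℝ) (E : Submodule ℝ (Fin m × Fin m → ℝ)) (T : ℝ)
    (hT : T2 (E : Set (Fin m × Fin m → ℝ)) T) (hT0 : 0 ≤ T)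
    (hE : ∀ b, (fun a => P a b) ∈ E)
    (htr : (m : ℝ) ^ 2 / 4 ≤ ∑ a, P a a)
    (hcol : ∀ b, ∑ a, P a b ^ 2 ≤ 1) (hrow : ∀ a, ∑ b, P a b ^ 2 ≤ 1) :
    1 ≤ 48 * T * (Real.sqrt (6 / t) + 2 / t) := by
  have ht0 : 0 < t := ht
  have htR : (1 : ℝ) ≤ t := by exact_mod_cast ht
  have htpos : (0 : ℝ) < t := by linarith
  have hm0 : 0 < m := by rw [hm]; positivity
  have hmR : (0 : ℝ) < m := by exact_mod_cast hm0
  haveI : Nonempty (Fin m) := ⟨⟨0, hm0⟩⟩
  -- choose the scale
  set w : ℕ → ℝ := fun l => ∑ b : Fin m × Fin m, ∑ a, (if (t : ℝ) ^ (2 * l) / m < P a b ^ 2 ∧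
    P a b ^ 2 ≤ (t : ℝ) ^ (2 * l + 2) / m then P a b ^ 2 else 0) with hw
  have hsum : ∑ l ∈ Finset.range t, w l ≤ ∑ _l ∈ Finset.range t, (m : ℝ) ^ 2 / t := by
    have h1 : ∑ l ∈ Finset.range t, w l ≤ ∑ b : Fin m × Fin m, ∑ a, P a b ^ 2 := by
      simp only [hw]
      rw [Finset.sum_comm]
      refine Finset.sum_le_sum (fun b _ => ?_)
      rw [Finset.sum_comm]
      exact Finset.sum_le_sum (fun a _ => windows t ht m (P a b ^ 2) hmR (sq_nonneg _))
    have h2 : ∑ b : Fin m × Fin m, ∑ a, P a b ^ 2 ≤ (m : ℝ) ^ 2 := by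
      refine (Finset.sum_le_sum (fun b _ => hcol b)).trans (le_of_eq ?_)
      simp [sq]
    refine (h1.trans h2).trans (le_of_eq ?_)
    simp
    field_simp
  obtain ⟨l, hl, hwl⟩ := Finset.exists_le_of_sum_le (Finset.nonempty_range_iff.mpr ht0.ne') hsum
  rw [Finset.mem_range] at hl
  obtain ⟨c, hc⟩ := exists_blocks m (t ^ (2 * t - (2 * l + 1))) (t ^ (2 * l + 1)) (by
    rw [hm, ← pow_add]; congr 1; omega)
  have hEap : ∀ (I : Finset (Fin m)) (p : Fin m → Fin m) (d : Fin m → ℤˣ),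
      ap P I p d ∈ (E : Set (Fin m × Fin m → ℝ)) := by
    intro I p d
    have : ap P I p d = ∑ i ∈ I, sg (d i) • (fun a => P a (i, p i)) := by
      funext a
      simp [ap, Finset.sum_apply]
    rw [this]
    exact E.sum_mem (fun i _ => E.smul_mem _ (hE _))
  have hcardR : (Fintype.card (Fin m) : ℝ) = m := by simp
  have key := scale_estimate (R := Fin m) (J := Fin m) P (E : Set _) T hT hT0 hEap rfl
    (by rw [hcardR]; exact htr) hcol hrow c ((t : ℝ) ^ (2 * l + 1)) t (by positivity) htR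
    (by intro k; rw [hc k]; push_cast; rfl)
    (by
      rw [hcardR, hm]
      push_cast
      rw [← pow_add]
      congr 1
      omega)
    (1 / t)
    (by
      rw [hcardR]
      have e1 : (t : ℝ) ^ (2 * l + 1) / (t * m) = (t : ℝ) ^ (2 * l) / m := by
        rw [pow_succ]; field_simp
      have e2 : (t : ℝ) ^ (2 * l + 1) * t / m = (t : ℝ) ^ (2 * l + 2) / m := by
        rw [← pow_succ]
      rw [e1, e2]
      refine hwl.trans (le_of_eq ?_)
      ring)
  refine key.trans ?_
  refine mul_le_mul_of_nonneg_left ?_ (by positivity)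
  have h3 : Real.sqrt (3 * (1 / (t : ℝ) ^ (2 * l + 1) + 1 / t)) ≤ Real.sqrt (6 / t) := by
    apply Real.sqrt_le_sqrt
    have : 1 / (t : ℝ) ^ (2 * l + 1) ≤ 1 / t := by
      apply one_div_le_one_div_of_le htpos
      calc (t : ℝ) = t ^ 1 := (pow_one _).symm
        _ ≤ t ^ (2 * l + 1) := pow_le_pow_right₀ htR (by omega)
    have h6 : (6 : ℝ) / t = 3 * (1 / t + 1 / t) := by ring
    rw [h6]
    linarith
  have h4 : (2 : ℝ) / t = 1 / t + 1 / t := by ring
  rw [h4]
  linarith

/-- the matrix of the orthogonal projection onto a subspace of `ℝ^α` -/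
theorem exists_proj {α : Type*} [Fintype α] [DecidableEq α] (E : Submodule ℝ (α → ℝ)) :
    ∃ P : α → α → ℝ, (∀ b, (fun a => P a b) ∈ E) ∧ (∀ b, ∑ a, P a b ^ 2 ≤ 1) ∧
      (∀ a, ∑ b, P a b ^ 2 ≤ 1) ∧ ∑ a, P a a = Module.finrank ℝ E := by
  set e : EuclideanSpace ℝ α ≃ₗ[ℝ] (α → ℝ) := WithLp.linearEquiv 2 ℝ (α → ℝ) with he
  set F : Submodule ℝ (EuclideanSpace ℝ α) := E.comap (e : EuclideanSpace ℝ α →ₗ[ℝ] (α → ℝ))
    with hF
  have hfin : Module.finrank ℝ F = Module.finrank ℝ E := by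
    have : F = E.map (e.symm : (α → ℝ) →ₗ[ℝ] EuclideanSpace ℝ α) := by
      rw [hF, Submodule.comap_equiv_eq_map_symm]
    rw [this]
    exact LinearEquiv.finrank_map_eq e.symm E
  set b := stdOrthonormalBasis ℝ F with hb
  set v : Fin (Module.finrank ℝ F) → EuclideanSpace ℝ α := fun l => (b l : EuclideanSpace ℝ α)
    with hv
  have hon : Orthonormal ℝ v := by
    have := b.orthonormal
    exact this.comp_linearIsometry F.subtypeₗᵢ
  have hinner : ∀ l k, ∑ a, v l a * v k a = if l = k then 1 else 0 := by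
    intro l k
    have := (orthonormal_iff_ite.mp hon) l k
    rw [← this, PiLp.inner_apply]
    refine Finset.sum_congr rfl (fun a _ => ?_)
    simp [mul_comm]
  set P : α → α → ℝ := fun a c => ∑ l, v l a * v l c with hP
  have hsymm : ∀ a c, P a c = P c a := fun a c =>
    Finset.sum_congr rfl (fun l _ => mul_comm _ _)
  have hsq : ∀ c, ∑ a, P a c ^ 2 = ∑ l, v l c ^ 2 := by
    intro c
    have h1 : ∀ a, P a c ^ 2 = ∑ l, ∑ k, (v l c * v k c) * (v l a * v k a) := by
      intro a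
      rw [hP, sq, Finset.sum_mul_sum]
      refine Finset.sum_congr rfl (fun l _ => Finset.sum_congr rfl (fun k _ => ?_))
      ring
    simp_rw [h1]
    rw [Finset.sum_comm]
    refine Finset.sum_congr rfl (fun l _ => ?_)
    rw [Finset.sum_comm]
    simp_rw [← Finset.mul_sum, hinner]
    simp [sq]
  have hbessel : ∀ c, ∑ l, v l c ^ 2 ≤ 1 := by
    intro c
    have := Orthonormal.sum_inner_products_le (s := Finset.univ) (EuclideanSpace.single c (1 : ℝ)) hon
    rw [EuclideanSpace.norm_single] at this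
    simp only [norm_one, one_pow] at this
    refine le_trans (le_of_eq (Finset.sum_congr rfl (fun l _ => ?_))) this
    rw [EuclideanSpace.inner_single_right]
    simp
  refine ⟨P, ?_, ?_, ?_, ?_⟩
  · intro c
    have : (fun a => P a c) = ∑ l, v l c • e (v l) := by
      funext a
      simp only [Finset.sum_apply, Pi.smul_apply, smul_eq_mul, hP]
      refine Finset.sum_congr rfl (fun l _ => ?_)
      rw [mul_comm]
      rfl
    rw [this]
    refine E.sum_mem (fun l _ => E.smul_mem _ ?_)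
    exact (b l).2
  · intro c
    rw [hsq]; exact hbessel c
  · intro a
    have : ∑ c, P a c ^ 2 = ∑ c, P c a ^ 2 :=
      Finset.sum_congr rfl (fun c _ => by rw [hsymm])
    rw [this, hsq]; exact hbessel a
  · simp only [hP]
    rw [Finset.sum_comm]
    simp_rw [hinner]
    rw [← hfin]
    simp

end Pool.Agent.Helper890.Tp
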