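import Mathlib

set_option autoImplicit false

namespace Pool.Agent.Helper890.Tp

open Finset
open scoped BigOperators

/-- a sign as a real number -/
def sg (e : ℤˣ) : ℝ := ((e : ℤ) : ℝ)

lemma sg_mul (a b : ℤˣ) : sg (a * b) = sg a * sg b := by simp [sg]
lemma sg_sq (a : ℤˣ) : sg a * sg a = 1 := by
  rcases Int.units_eq_one_or a with h | h <;> simp [sg, h]
lemma sg_abs (a : ℤˣ) : |sg a| = 1 := by
  rcases Int.units_eq_one_or a with h | h <;> simp [sg, h]
lemma sg_neg_one : sg (-1) = -1 := by simp [sg]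

variable {I : Type*} [Fintype I] [DecidableEq I]

/-- the function flipping the sign number `i` -/
def fl (i : I) : I → ℤˣ := Pi.mulSingle i (-1)

/-- flipping one sign does not change the average -/
lemma expect_flip (i : I) (f : (I → ℤˣ) → ℝ) :
    𝔼 d : I → ℤˣ, f d = 𝔼 d : I → ℤˣ, f (fl i * d) :=
  (Fintype.expect_equiv (Equiv.mulLeft (fl i))
    (fun d => f (fl i * d)) f (fun _ => rfl)).symm

lemma expect_mulRight (e : I → ℤˣ) (f : (I → ℤˣ) → ℝ) :
    𝔼 d : I → ℤˣ, f (d * e) = 𝔼 d : I → ℤˣ, f d :=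
  Fintype.expect_equiv (Equiv.mulRight e) (fun d => f (d * e)) f (fun _ => rfl)

lemma flip_self (i : I) (d : I → ℤˣ) : sg ((fl i * d) i) = - sg (d i) := by
  simp [sg, fl]

lemma flip_ne {i k : I} (h : k ≠ i) (d : I → ℤˣ) :
    (fl i * d) k = d k := by
  simp [fl, Pi.mulSingle_eq_of_ne h]

/-- odd functions of the `i`-th sign have zero mean -/
lemma expect_odd (i : I) (f : (I → ℤˣ) → ℝ)
    (hf : ∀ d, f (fl i * d) = - f d) : 𝔼 d : I → ℤˣ, f d = 0 := by
  have h := expect_flip i f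
  have h2 : 𝔼 d : I → ℤˣ, f (fl i * d) = - 𝔼 d : I → ℤˣ, f d := by
    rw [← Finset.expect_neg_distrib]
    exact Finset.expect_congr rfl (fun d _ => hf d)
  linarith

lemma expect_one : 𝔼 _d : I → ℤˣ, (1 : ℝ) = 1 := Fintype.expect_const _

lemma expect_sg_sg (i k : I) :
    𝔼 d : I → ℤˣ, sg (d i) * sg (d k) = if i = k then 1 else 0 := by
  split_ifs with h
  · subst h
    simp_rw [sg_sq]
    exact expect_one
  · apply expect_odd i
    intro d
    rw [flip_self, flip_ne (Ne.symm h)]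
    ring

/-- `E δᵢ ∑ δₖ bₖ = bᵢ` -/
lemma expect_sg_sum (s : Finset I) (b : I → ℝ) (i : I) :
    𝔼 d : I → ℤˣ, sg (d i) * ∑ k ∈ s, sg (d k) * b k = if i ∈ s then b i else 0 := by
  have h : ∀ d : I → ℤˣ, sg (d i) * ∑ k ∈ s, sg (d k) * b k
      = ∑ k ∈ s, (sg (d i) * sg (d k)) * b k := by
    intro d
    rw [Finset.mul_sum]
    exact Finset.sum_congr rfl (fun k _ => by ring)
  simp_rw [h]
  rw [Finset.expect_sum_comm]
  simp_rw [← Finset.expect_mul, expect_sg_sg]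
  simp

lemma expect_sq (s : Finset I) (a : I → ℝ) :
    𝔼 d : I → ℤˣ, (∑ k ∈ s, sg (d k) * a k) ^ 2 = ∑ k ∈ s, a k ^ 2 := by
  have h : ∀ d : I → ℤˣ, (∑ k ∈ s, sg (d k) * a k) ^ 2
      = ∑ i ∈ s, a i * (sg (d i) * ∑ k ∈ s, sg (d k) * a k) := by
    intro d
    rw [sq, Finset.sum_mul]
    exact Finset.sum_congr rfl (fun k _ => by ring)
  simp_rw [h]
  rw [Finset.expect_sum_comm]
  refine Finset.sum_congr rfl (fun i hi => ?_)
  rw [← Finset.mul_expect, expect_sg_sum, if_pos hi]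
  ring

lemma expect_four (s : Finset I) (a : I → ℝ) :
    𝔼 d : I → ℤˣ, (∑ k ∈ s, sg (d k) * a k) ^ 4 ≤ 3 * (∑ k ∈ s, a k ^ 2) ^ 2 := by
  induction s using Finset.induction_on with
  | empty => simp
  | insert i s hi ih =>
    set S : (I → ℤˣ) → ℝ := fun d => ∑ k ∈ s, sg (d k) * a k with hS
    have hSflip : ∀ d, S (fl i * d) = S d := by
      intro d
      refine Finset.sum_congr rfl (fun k hk => ?_)
      rw [flip_ne]
      rintro rfl
      exact hi hk
    have hexp : ∀ d : I → ℤˣ, (∑ k ∈ insert i s, sg (d k) * a k) ^ 4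
        = S d ^ 4 + 6 * a i ^ 2 * S d ^ 2 + a i ^ 4
          + sg (d i) * (4 * a i * S d ^ 3 + 4 * a i ^ 3 * S d) := by
      intro d
      rw [Finset.sum_insert hi]
      have h1 := sg_sq (d i)
      have h2 : sg (d i) ^ 2 = 1 := by rw [sq]; exact h1
      have h3 : sg (d i) ^ 3 = sg (d i) := by rw [pow_succ, h2, one_mul]
      have h4 : sg (d i) ^ 4 = 1 := by
        have : sg (d i) ^ 4 = (sg (d i) ^ 2) ^ 2 := by ring
        rw [this, h2]; norm_num
      have : (sg (d i) * a i + S d) ^ 4 = S d ^ 4 + 6 * a i ^ 2 * S d ^ 2 * sg (d i) ^ 2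
          + a i ^ 4 * sg (d i) ^ 4 + (4 * a i * S d ^ 3 * sg (d i)
            + 4 * a i ^ 3 * S d * sg (d i) ^ 3) := by ring
      rw [show (∑ k ∈ s, sg (d k) * a k) = S d from rfl, this, h2, h3, h4]
      ring
    simp_rw [hexp]
    rw [Finset.expect_add_distrib, Finset.expect_add_distrib, Finset.expect_add_distrib]
    have hodd : 𝔼 d : I → ℤˣ, sg (d i) * (4 * a i * S d ^ 3 + 4 * a i ^ 3 * S d) = 0 := by
      apply expect_odd i
      intro d
      rw [flip_self, hSflip]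
      ring
    rw [hodd, Fintype.expect_const, ← Finset.mul_expect, expect_sq, Finset.sum_insert hi]
    have : 0 ≤ ∑ k ∈ s, a k ^ 2 := Finset.sum_nonneg (fun k _ => sq_nonneg _)
    nlinarith [ih, sq_nonneg (a i), sq_nonneg (a i ^ 2)]

lemma pt_ineq (x c : ℝ) (hx : 0 ≤ x) (hc : 0 ≤ c) :
    c * x ^ 2 - 4 * c ^ 3 / 27 * x ^ 4 ≤ x := by
  have h : 0 ≤ x * ((2 * (c * x) - 3) ^ 2 * (c * x + 3)) := by positivity
  nlinarith [h]

/-- Khintchine's inequality `L¹`–`L²` with constant `√3` -/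
lemma expect_abs (s : Finset I) (a : I → ℝ) :
    ∑ k ∈ s, a k ^ 2 ≤ 3 * (𝔼 d : I → ℤˣ, |∑ k ∈ s, sg (d k) * a k|) ^ 2 := by
  set A := ∑ k ∈ s, a k ^ 2 with hA
  have hA0 : 0 ≤ A := Finset.sum_nonneg (fun k _ => sq_nonneg _)
  rcases hA0.eq_or_lt with h0 | hpos
  · rw [← h0]; positivity
  set c := Real.sqrt (3 / (4 * A)) with hc
  have hc2 : c ^ 2 = 3 / (4 * A) := Real.sq_sqrt (by positivity)
  have hcpos : 0 < c := Real.sqrt_pos.mpr (by positivity)
  have h1 : 𝔼 d : I → ℤˣ, (c * (∑ k ∈ s, sg (d k) * a k) ^ 2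
      - 4 * c ^ 3 / 27 * (∑ k ∈ s, sg (d k) * a k) ^ 4)
      ≤ 𝔼 d : I → ℤˣ, |∑ k ∈ s, sg (d k) * a k| := by
    apply Finset.expect_le_expect
    intro d _
    have := pt_ineq |∑ k ∈ s, sg (d k) * a k| c (abs_nonneg _) hcpos.le
    rw [sq_abs, Even.pow_abs (by decide)] at this
    exact this
  rw [Finset.expect_sub_distrib, ← Finset.mul_expect, ← Finset.mul_expect, expect_sq] at h1
  have h4 := expect_four s a
  set X := 𝔼 d : I → ℤˣ, |∑ k ∈ s, sg (d k) * a k| with hX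
  have h2 : 4 * c ^ 3 / 27 * (𝔼 d : I → ℤˣ, (∑ k ∈ s, sg (d k) * a k) ^ 4)
      ≤ 4 * c ^ 3 / 27 * (3 * A ^ 2) := mul_le_mul_of_nonneg_left h4 (by positivity)
  have h3 : 4 * c ^ 3 / 27 * (3 * A ^ 2) = c * A / 3 := by
    have : c ^ 3 = c * (3 / (4 * A)) := by rw [pow_succ, hc2]; ring
    rw [this]
    field_simp
    ring
  have h5 : 2 / 3 * (c * A) ≤ X := by
    have : c * A - c * A / 3 ≤ X := by linarith [h1, h2, h3]
    linarith
  have h6 : (2 / 3 * (c * A)) ^ 2 ≤ X ^ 2 := by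
    apply pow_le_pow_left₀ (by positivity) h5
  have h7 : (2 / 3 * (c * A)) ^ 2 = A / 3 := by
    have : (2 / 3 * (c * A)) ^ 2 = 4 / 9 * (c ^ 2 * A ^ 2) := by ring
    rw [this, hc2]
    field_simp
    ring
  linarith

/-- Jensen for squares -/
lemma sq_expect_le {Ω : Type*} [Fintype Ω] [Nonempty Ω] (f : Ω → ℝ) :
    (𝔼 w, f w) ^ 2 ≤ 𝔼 w, f w ^ 2 := by
  have := Finset.expect_mul_sq_le_sq_mul_sq (Finset.univ : Finset Ω) f (fun _ => (1 : ℝ))
  simpa using this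

end Pool.Agent.Helper890.Tp
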